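import Pool.Agent.MVO.StmtsC
import Pool.Agent.Helper35_MVO.FAA

/-!
# Squad MVO, row FCC (helper24): the calculus of exchanges in class c1
-/

namespace Pool.Agent.MVO.H24

open Pool.Agent.Helper14_MV Pool.Agent.Helper2_MV Pool.Agent.MVO
open Pool.Agent.MVO.H35 (f2 f5 deg_le deg_psh count_pshB flp_same flp_ne mem_bl count0_bl count1_bl
  bl_zero)

theorem fr_symm {k : ℕ} {a b : ℕ → ℕ} {i : ℕ} (h : FR k a b i) : FR k b a i := by
  obtain ⟨h1, h2, h3, h4, h5⟩ := h
  exact ⟨fun j hj => (h1 j hj).symm, fun j hj hji => (h2 j hj hji).symm, h4, h3, h5.symm⟩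

theorem deg_one {k i : ℕ} {a : ℕ → ℕ} (hi : i ≤ k) (h : ∀ j ≤ k, j ≠ i → a j = 0) :
    deg k a = a i := by
  unfold deg
  rw [Finset.sum_eq_single i]
  · intro j hj hji
    rw [Finset.mem_range] at hj
    exact h j (by omega) hji
  · intro h1
    rw [Finset.mem_range] at h1
    omega

/-- (C0) -/
theorem c0 (hE : ExcStmt) {ρ : FIC} (hA : ClC1 ρ) {k : ℕ} {a b : ℕ → ℕ} {i : ℕ}
    (ha : 2 ≤ deg k a) (hb : 2 ≤ deg k b) (hi : i ≤ k) (h1 : ¬ FR k a b i)
    (h2 : ¬ ZR k a b i) : Bt ρ k a b i := by
  have key : ∀ e : ℕ → Bool, e i = false → RR ρ (w2 k a b e) (w2 k a b (flp e i)) := by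
    intro e he
    obtain ⟨n, hn⟩ : ∃ n : ℕ → ℕ → ℕ, n = fun j c => if c = 0 then a j else if c = 1 then b j
      else 0 := ⟨_, rfl⟩
    have n0 : ∀ j, n j 0 = a j := by intro j; rw [hn]; simp
    have n1 : ∀ j, n j 1 = b j := by intro j; rw [hn]; simp
    obtain ⟨D, hD⟩ : ∃ D : (ℕ → Bool) → ℕ → List ℕ, D = fun e j => if e j then [1, 0] else [0, 1] :=
      ⟨_, rfl⟩
    have hDt : ∀ e j, e j = true → D e j = [1, 0] := by intro e j h; rw [hD]; simp [h]
    have hDf : ∀ e j, e j = false → D e j = [0, 1] := by intro e j h; rw [hD]; simp [h]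
    have hw : ∀ e, gw k n (D e) = w2 k a b e := by
      intro e
      unfold gw w2
      apply asm_congr
      intro j hj
      unfold gb bl
      cases hej : e j
      · rw [hDf e j hej]
        simp [n0, n1]
      · rw [hDt e j hej]
        simp [n0, n1]
    have hG : GData k [0, 1] n (D e) := by
      refine ⟨by simp, ?_, ?_, ?_⟩
      · intro c hc
        simp only [List.mem_cons, List.not_mem_nil, or_false] at hc
        intro hs
        have := hs.1
        omega
      · intro c hc
        simp only [List.mem_cons, List.not_mem_nil, or_false] at hc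
        rcases hc with hc | hc
        · subst hc
          simp only [n0]
          exact ha
        · subst hc
          simp only [n1]
          exact hb
      · intro j
        cases hej : e j
        · rw [hDf e j hej]
        · rw [hDt e j hej]
          exact List.Perm.swap _ _ _
    have h3 := hE ρ hA k [0, 1] n (D e) hG i hi [] [] 0 1 (by rw [hDf e i he]; rfl)
      (by simp only [n0, n1]; exact h1) (by simp only [n0, n1]; exact h2)
    have h4 : gw k n (Function.update (D e) i ([] ++ 1 :: 0 :: [])) = gw k n (D (flp e i)) := by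
      unfold gw
      apply asm_congr
      intro j hj
      by_cases hji : j = i
      · subst hji
        rw [Function.update_self, hDt (flp e j) j (by rw [flp_same, he]; rfl)]
        rfl
      · rw [Function.update_of_ne hji]
        cases hej : e j
        · rw [hDf e j hej, hDf (flp e i) j (by rw [flp_ne hji]; exact hej)]
        · rw [hDt e j hej, hDt (flp e i) j (by rw [flp_ne hji]; exact hej)]
    rw [h4, hw, hw] at h3
    exact h3
  intro e
  cases he : e i
  · exact key e he
  · have h3 := key (flp e i) (by rw [flp_same, he]; rfl)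
    have h4 : flp (flp e i) i = e := by
      funext j
      unfold flp
      split_ifs <;> simp
    rw [h4] at h3
    exact RR.symm h3

theorem move (hS : SgcStmt) {ρ : FIC} (hC : MVD.Cc ρ) (x y : ℕ) (m : ℕ) :
    ∀ (p q : List ℕ), x ∈ p → y ∈ q →
      RR ρ (p ++ y :: (List.replicate m x ++ q)) (p ++ (List.replicate m x ++ y :: q)) := by
  induction m with
  | zero =>
    intro p q _ _
    simp only [List.replicate_zero, List.nil_append]
    exact RR.refl _
  | succ m ih =>
    intro p q hx hy
    rw [List.replicate_succ]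
    simp only [List.cons_append]
    have h1 := (hS ρ hC p (List.replicate m x ++ q) x y).1 hx (List.mem_append_right _ hy)
    have h2 := ih (p ++ [x]) q (List.mem_append_left _ hx) hy
    simp only [List.append_assoc, List.singleton_append] at h2
    exact ρ.trans (RR.symm h1) h2

/-- the only `0` in block `i` goes over the powers of `1` -/
theorem frkey (hS : SgcStmt) {ρ : FIC} (hC : MVD.Cc ρ) {k i : ℕ} {a b : ℕ → ℕ} (hi : i ≤ k)
    (ha : 2 ≤ deg k a) (h0 : ∀ j < i, a j = 0) (h1 : a i = 1) {s t : ℕ} (hs : 1 ≤ s)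
    (hst : b i = s + t) (e : ℕ → Bool) {W : ℕ → List ℕ}
    (hWi : W i = bl 1 s (e i) ++ List.replicate t 1)
    (hW : ∀ j ≤ k, j ≠ i → W j = bl (a j) (b j) (e j)) : RR ρ (asm k W) (w2 k a b e) := by
  have hw : w2 k a b e = asm k (Function.update W i (bl 1 (s + t) (e i))) := by
    unfold w2
    apply asm_congr
    intro j hj
    by_cases hji : j = i
    · subst hji
      rw [Function.update_self, h1, hst]
    · rw [Function.update_of_ne hji, hW j hj hji]
  rw [hw, asm_update hi, asm_split hi, hWi]
  cases he : e i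
  · have e1 : bl 1 s false ++ List.replicate t 1 = bl 1 (s + t) false := by
      unfold bl
      simp
    rw [e1]
    exact RR.refl _
  · have hz : ∃ j, i < j ∧ j ≤ k ∧ a j ≠ 0 := by
      by_contra hno
      push Not at hno
      have h2 : deg k a = a i := deg_one hi (fun j hj hji => by
        by_cases hlt : j < i
        · exact h0 j hlt
        · exact hno j (by omega) hj)
      omega
    obtain ⟨j, hj1, hj2, hj3⟩ := hz
    have hmem : 0 ∈ suf W i (k - i) := by
      rw [mem_suf]
      right
      refine ⟨j, hj1, by omega, ?_⟩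
      rw [hW j hj2 (by omega)]
      unfold bl
      split_ifs
      · rw [List.mem_append]
        right
        exact List.mem_replicate.2 ⟨hj3, rfl⟩
      · rw [List.mem_append]
        left
        exact List.mem_replicate.2 ⟨hj3, rfl⟩
    have h2 := move hS hC 1 0 t (pre W i ++ List.replicate s 1) (suf W i (k - i))
      (List.mem_append_right _ (List.mem_replicate.2 ⟨by omega, rfl⟩)) hmem
    have e1 : pre W i ++ (bl 1 s true ++ List.replicate t 1) ++ suf W i (k - i) =
        pre W i ++ List.replicate s 1 ++ 0 :: (List.replicate t 1 ++ suf W i (k - i)) := by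
      unfold bl
      simp
    have e2 : pre W i ++ bl 1 (s + t) true ++ suf W i (k - i) =
        pre W i ++ List.replicate s 1 ++ (List.replicate t 1 ++ 0 :: suf W i (k - i)) := by
      unfold bl
      rw [if_pos rfl, List.replicate_add]
      simp only [List.append_assoc, List.replicate_one, List.singleton_append]
    rw [e1, e2]
    exact h2

theorem ok2 (k : ℕ) (a b : ℕ → ℕ) (e : ℕ → Bool) : BlkOk k (fun j => bl (a j) (b j) (e j)) := by
  intro j hj c hc hs
  rcases mem_bl hc with h | h <;> subst h <;> omega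

/-- a block with one letter only -/
theorem bl_add {p q r s : ℕ} (h : p + r = 0 ∨ q + s = 0) (e : Bool) :
    bl p q e ++ (List.replicate r 0 ++ List.replicate s 1) = bl (p + r) (q + s) e := by
  rcases h with h | h
  · obtain ⟨hp, hr⟩ : p = 0 ∧ r = 0 := by omega
    subst hp
    subst hr
    unfold bl
    cases e <;> simp
  · obtain ⟨hp, hr⟩ : q = 0 ∧ s = 0 := by omega
    subst hp
    subst hr
    unfold bl
    cases e <;> simp

theorem add_bl {p q r s : ℕ} (h : p + r = 0 ∨ q + s = 0) (e : Bool) :
    (List.replicate r 0 ++ List.replicate s 1) ++ bl p q e = bl (p + r) (q + s) e := by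
  rcases h with h | h
  · obtain ⟨hp, hr⟩ : p = 0 ∧ r = 0 := by omega
    subst hp
    subst hr
    unfold bl
    cases e <;> simp [Nat.add_comm]
  · obtain ⟨hp, hr⟩ : q = 0 ∧ s = 0 := by omega
    subst hp
    subst hr
    unfold bl
    cases e <;> simp [Nat.add_comm]

/-- (C3), the case FR -/
theorem c3a (hS : SgcStmt) {ρ : FIC} (hC : MVD.Cc ρ) {k : ℕ} {a b d d' : ℕ → ℕ}
    {i : ℕ} (ha : 2 ≤ deg k a) (hi : i ≤ k) (ha1 : 1 ≤ a i) (hb1 : 1 ≤ b i)
    (hB : Bt ρ k a b i) (hF : FR k (fun j => a j + d j) (fun j => b j + d' j) i)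
    (h1 : a i + d i = 1) : Bt ρ k (fun j => a j + d j) (fun j => b j + d' j) i := by
  obtain ⟨h2, h3, h4, h5, h6⟩ := hF
  have ha' : 2 ≤ deg k (fun j => a j + d j) := ha.trans (deg_le fun j _ => by omega)
  have key : ∀ e : ℕ → Bool, RR ρ
      (asm k (fun j => [] ++ bl (a j) (b j) (e j) ++
        (List.replicate (d j) 0 ++ List.replicate (d' j) 1)))
      (w2 k (fun j => a j + d j) (fun j => b j + d' j) e) := by
    intro e
    apply frkey hS hC hi ha' (fun j hj => (h2 j hj).1) h1 hb1 (t := d' i) rfl e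
    · have e1 : a i = 1 := by omega
      have e2 : d i = 0 := by omega
      simp only [List.nil_append]
      rw [e1, e2]
      simp
    · intro j hj hji
      simp only [List.nil_append]
      exact bl_add (h3 j hj hji) _
  intro e
  have h7 := rr_ins' ρ (fun _ => []) (fun j => List.replicate (d j) 0 ++ List.replicate (d' j) 1)
    (ok2 k a b e) (ok2 k a b (flp e i)) (hB e)
  exact ρ.trans (RR.symm (key e)) (ρ.trans h7 (key (flp e i)))

/-- (C3) -/
theorem c3 (hS : SgcStmt) (hE : ExcStmt) {ρ : FIC} (hA : ClC1 ρ) {k : ℕ} {a b d d' : ℕ → ℕ}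
    {i : ℕ} (ha : 2 ≤ deg k a) (hb : 2 ≤ deg k b) (hi : i ≤ k) (ha1 : 1 ≤ a i) (hb1 : 1 ≤ b i)
    (hB : Bt ρ k a b i) : Bt ρ k (fun j => a j + d j) (fun j => b j + d' j) i := by
  have ha' : 2 ≤ deg k (fun j => a j + d j) := ha.trans (deg_le fun j _ => by omega)
  have hb' : 2 ≤ deg k (fun j => b j + d' j) := hb.trans (deg_le fun j _ => by omega)
  by_cases hF : FR k (fun j => a j + d j) (fun j => b j + d' j) i
  · rcases hF.2.2.2.2 with h | h
    · exact c3a hS hA.cc ha hi ha1 hb1 hB hF h
    · exact f5 (c3a hS hA.cc hb hi hb1 ha1 (f5 hB) (fr_symm hF) h)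
  by_cases hZ : ZR k (fun j => a j + d j) (fun j => b j + d' j) i
  · obtain ⟨h1, h2, h3, h4⟩ := hZ
    have h3 : a i + d i = 1 := h3
    have h4 : b i + d' i = 1 := h4
    have key : ∀ e : ℕ → Bool,
        asm k (fun j => (List.replicate (d j) 0 ++ List.replicate (d' j) 1) ++
          bl (a j) (b j) (e j) ++ []) = w2 k (fun j => a j + d j) (fun j => b j + d' j) e := by
      intro e
      unfold w2
      apply asm_congr
      intro j hj
      rw [List.append_nil]
      by_cases hji : j = i
      · subst hji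
        have e1 : d j = 0 := by omega
        have e2 : d' j = 0 := by omega
        simp [e1, e2]
      · exact add_bl (h2 j hj hji) _
    intro e
    have h7 := rr_ins' ρ (fun j => List.replicate (d j) 0 ++ List.replicate (d' j) 1) (fun _ => [])
      (ok2 k a b e) (ok2 k a b (flp e i)) (hB e)
    rw [key, key] at h7
    exact h7
  · exact c0 hE hA ha' hb' hi hF hZ

/-! ### Maps of blocks -/

theorem psh_zero_lt {k k' : ℕ} {f : ℕ → ℕ} (hf : BMap k k' f) {i : ℕ} {a : ℕ → ℕ}
    (h : ∀ j < i, a j = 0) : ∀ j < f i, psh k f a j = 0 := by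
  intro j hj
  unfold psh
  apply Finset.sum_eq_zero
  intro m hm
  rw [Finset.mem_range] at hm
  split_ifs with h1
  · apply h
    by_contra h2
    have := hf.mono i m (by omega) (by omega)
    omega
  · rfl

theorem psh_zero_gt {k k' : ℕ} {f : ℕ → ℕ} (hf : BMap k k' f) {i : ℕ} {a : ℕ → ℕ}
    (hi : i ≤ k) (h : ∀ j ≤ k, i < j → a j = 0) : ∀ j, f i < j → psh k f a j = 0 := by
  intro j hj
  unfold psh
  apply Finset.sum_eq_zero
  intro m hm
  rw [Finset.mem_range] at hm
  split_ifs with h1
  · apply h m (by omega)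
    by_contra h2
    have := hf.mono m i (by omega) hi
    omega
  · rfl

theorem le_psh {k : ℕ} {f : ℕ → ℕ} {a : ℕ → ℕ} {i : ℕ} (hi : i ≤ k) : a i ≤ psh k f a (f i) := by
  unfold psh
  have h1 := Finset.single_le_sum (f := fun m => if f m = f i then a m else 0)
    (s := Finset.range (k + 1)) (fun _ _ => Nat.zero_le _) (Finset.mem_range.2 (by omega : i < k + 1))
  simp only [if_true] at h1
  exact h1

theorem add_le_psh {k : ℕ} {f : ℕ → ℕ} {a : ℕ → ℕ} {i m : ℕ} (hi : i ≤ k) (hm : m ≤ k)
    (hne : m ≠ i) (hf : f m = f i) : a i + a m ≤ psh k f a (f i) := by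
  unfold psh
  have h1 : ∑ j ∈ ({i, m} : Finset ℕ), (if f j = f i then a j else 0) ≤
      ∑ j ∈ Finset.range (k + 1), (if f j = f i then a j else 0) := by
    apply Finset.sum_le_sum_of_subset
    intro j hj
    rw [Finset.mem_insert, Finset.mem_singleton] at hj
    rw [Finset.mem_range]
    omega
  rw [Finset.sum_pair (Ne.symm hne), if_pos rfl, if_pos hf] at h1
  exact h1

theorem psh_eq_zero {k : ℕ} {f : ℕ → ℕ} {a : ℕ → ℕ} {j m : ℕ} (hm : m ≤ k) (hf : f m = j)
    (h : psh k f a j = 0) : a m = 0 := by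
  subst hf
  have := le_psh (f := f) (a := a) hm
  omega

theorem pshB_eq_nil {k : ℕ} {f : ℕ → ℕ} {B : ℕ → List ℕ} {j : ℕ}
    (h : ∀ m ≤ k, f m = j → B m = []) : pshB k f B j = [] := by
  rw [List.eq_nil_iff_forall_not_mem]
  intro c hc
  obtain ⟨m, hm, hfm, hcm⟩ := mem_pshB.1 hc
  rw [h m hm hfm] at hcm
  simp at hcm

theorem pshB_at {i : ℕ} {f : ℕ → ℕ} {B : ℕ → List ℕ} {j : ℕ} (hj : f i = j) :
    ∀ k, i ≤ k → (∀ m < i, f m = j → B m = []) →
      (∀ m, i < m → m ≤ k → f m = j → ∃ t, B m = List.replicate t 1) →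
        ∃ t, pshB k f B j = B i ++ List.replicate t 1 := by
  intro k hk h1
  induction k, hk using Nat.le_induction with
  | base =>
    intro _
    refine ⟨0, ?_⟩
    cases i with
    | zero =>
      rw [pshB_zero, if_pos hj]
      simp
    | succ i =>
      rw [pshB_succ, if_pos hj, pshB_eq_nil (fun m hm hfm => h1 m (by omega) hfm)]
      simp
  | succ k hk ih =>
    intro h2
    obtain ⟨t, ht⟩ := ih (fun m hm1 hm2 => h2 m hm1 (by omega))
    rw [pshB_succ, ht]
    by_cases h3 : f (k + 1) = j
    · obtain ⟨s, hs⟩ := h2 (k + 1) (by omega) le_rfl h3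
      refine ⟨t + s, ?_⟩
      rw [if_pos h3, hs, List.append_assoc, List.replicate_add]
    · refine ⟨t, ?_⟩
      rw [if_neg h3, List.append_nil]

/-- the blocks of the pushed word in which one letter does not occur -/
theorem pshB_one {k : ℕ} {f : ℕ → ℕ} {a b : ℕ → ℕ} {e : ℕ → Bool} {j : ℕ} (e' : Bool)
    (h : psh k f a j = 0 ∨ psh k f b j = 0) :
    pshB k f (fun m => bl (a m) (b m) (e m)) j = bl (psh k f a j) (psh k f b j) e' := by
  rcases h with h | h
  · have h1 : pshB k f (fun m => bl (a m) (b m) (e m)) j = List.replicate (psh k f b j) 1 := by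
      have h2 : ∀ c ∈ pshB k f (fun m => bl (a m) (b m) (e m)) j, c = 1 := by
        intro c hc
        obtain ⟨m, hm, hfm, hcm⟩ := mem_pshB.1 hc
        rcases mem_bl hcm with h3 | h3
        · exfalso
          have h4 : a m = 0 := psh_eq_zero hm hfm h
          have h5 := count0_bl (a m) (b m) (e m)
          rw [h4] at h5
          rw [h3, h4] at hcm
          exact (List.count_pos_iff.2 hcm).ne' h5
        · exact h3
      have h3 : (pshB k f (fun m => bl (a m) (b m) (e m)) j).count 1 = psh k f b j := by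
        rw [count_pshB]
        simp only [count1_bl]
      have h4 := List.eq_replicate_of_mem h2
      rw [List.count_eq_length.2 (fun c hc => (h2 c hc).symm)] at h3
      rw [h3] at h4
      exact h4
    rw [h1, h]
    unfold bl
    cases e' <;> simp
  · have h1 : pshB k f (fun m => bl (a m) (b m) (e m)) j = List.replicate (psh k f a j) 0 := by
      have h2 : ∀ c ∈ pshB k f (fun m => bl (a m) (b m) (e m)) j, c = 0 := by
        intro c hc
        obtain ⟨m, hm, hfm, hcm⟩ := mem_pshB.1 hc
        rcases mem_bl hcm with h3 | h3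
        · exact h3
        · exfalso
          have h4 : b m = 0 := psh_eq_zero hm hfm h
          have h5 := count1_bl (a m) (b m) (e m)
          rw [h4] at h5
          rw [h3, h4] at hcm
          exact (List.count_pos_iff.2 hcm).ne' h5
      have h3 : (pshB k f (fun m => bl (a m) (b m) (e m)) j).count 0 = psh k f a j := by
        rw [count_pshB]
        simp only [count0_bl]
      have h4 := List.eq_replicate_of_mem h2
      rw [List.count_eq_length.2 (fun c hc => (h2 c hc).symm)] at h3
      rw [h3] at h4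
      exact h4
    rw [h1, h]
    unfold bl
    cases e' <;> simp

/-- (C4F), the case in which the letter `0` occurs once -/
theorem c4a (hS : SgcStmt) {ρ : FIC} (hC : MVD.Cc ρ) {k k' : ℕ} {f : ℕ → ℕ} {a b : ℕ → ℕ}
    {i : ℕ} (hf : BMap k k' f) (ha : 2 ≤ deg k a) (hi : i ≤ k) (ha1 : 1 ≤ a i) (hb1 : 1 ≤ b i)
    (h0 : ∀ j < i, a j = 0 ∧ b j = 0) (hB : Bt ρ k a b i)
    (hF : FR k' (psh k f a) (psh k f b) (f i)) (h1 : psh k f a (f i) = 1) :
    Bt ρ k' (psh k f a) (psh k f b) (f i) := by
  obtain ⟨h2, h3, h4, h5, h6⟩ := hF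
  have hai : a i = 1 := by
    have := le_psh (f := f) (a := a) hi
    omega
  have ha' : 2 ≤ deg k' (psh k f a) := by rw [deg_psh hf]; exact ha
  have key : ∀ (e e' : ℕ → Bool), e i = e' (f i) →
      RR ρ (asm k' (pshB k f (fun j => bl (a j) (b j) (e j)))) (w2 k' (psh k f a) (psh k f b) e') := by
    intro e e' hee
    obtain ⟨t, ht⟩ := pshB_at (B := fun j => bl (a j) (b j) (e j)) (f := f) (i := i) rfl k hi
      (fun m hm _ => by
        show bl (a m) (b m) (e m) = []
        rw [(h0 m hm).1, (h0 m hm).2]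
        exact bl_zero _)
      (fun m hm1 hm2 hm3 => by
        have h7 := add_le_psh (a := a) hi hm2 (by omega : m ≠ i) hm3
        have h8 : a m = 0 := by omega
        refine ⟨b m, ?_⟩
        show bl (a m) (b m) (e m) = List.replicate (b m) 1
        rw [h8]
        unfold bl
        cases e m <;> simp)
    have hbt : psh k f b (f i) = b i + t := by
      have h7 : (pshB k f (fun j => bl (a j) (b j) (e j)) (f i)).count 1 = psh k f b (f i) := by
        rw [count_pshB]
        simp only [count1_bl]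
      rw [← h7, ht, List.count_append, count1_bl, List.count_replicate_self]
    apply frkey hS hC (hf.le i hi) ha' (fun j hj => (h2 j hj).1) h1 hb1 hbt e'
    · rw [ht, hai, hee]
    · intro j hj hji
      exact pshB_one _ (h3 j hj hji)
  intro e'
  obtain ⟨e, he⟩ : ∃ e : ℕ → Bool, e = fun _ => e' (f i) := ⟨_, rfl⟩
  have h7 := rr_push ρ hf (ok2 k a b e) (ok2 k a b (flp e i)) (hB e)
  have h8 := key e e' (by rw [he])
  have h9 := key (flp e i) (flp e' (f i)) (by rw [flp_same, flp_same, he])
  exact ρ.trans (RR.symm h8) (ρ.trans h7 h9)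

/-- (C4F) -/
theorem c4F (hS : SgcStmt) (hE : ExcStmt) {ρ : FIC} (hA : ClC1 ρ) {k k' : ℕ} {f : ℕ → ℕ}
    {a b : ℕ → ℕ} {i : ℕ} (hf : BMap k k' f) (ha : 2 ≤ deg k a) (hb : 2 ≤ deg k b) (hi : i ≤ k)
    (ha1 : 1 ≤ a i) (hb1 : 1 ≤ b i) (h0 : ∀ j < i, a j = 0 ∧ b j = 0) (hB : Bt ρ k a b i) :
    Bt ρ k' (psh k f a) (psh k f b) (f i) := by
  have ha' : 2 ≤ deg k' (psh k f a) := by rw [deg_psh hf]; exact ha
  have hb' : 2 ≤ deg k' (psh k f b) := by rw [deg_psh hf]; exact hb
  by_cases hF : FR k' (psh k f a) (psh k f b) (f i)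
  · rcases hF.2.2.2.2 with h | h
    · exact c4a hS hA.cc hf ha hi ha1 hb1 h0 hB hF h
    · exact f5 (c4a hS hA.cc hf hb hi hb1 ha1 (fun j hj => (h0 j hj).symm) (f5 hB) (fr_symm hF) h)
  by_cases hZ : ZR k' (psh k f a) (psh k f b) (f i)
  · exfalso
    obtain ⟨h1, h2, h3, h4⟩ := hZ
    have h5 : deg k' (psh k f a) = psh k f a (f i) := by
      apply deg_one (hf.le i hi)
      intro j hj hji
      by_cases hlt : j < f i
      · exact psh_zero_lt hf (fun j hj => (h0 j hj).1) j hlt
      · exact (h1 j hj (by omega)).1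
    omega
  · exact c0 hE hA ha' hb' (hf.le i hi) hF hZ

/-- (C4Z) -/
theorem c4Z (hE : ExcStmt) {ρ : FIC} (hA : ClC1 ρ) {k k' : ℕ} {f : ℕ → ℕ}
    {a b : ℕ → ℕ} {i : ℕ} (hf : BMap k k' f) (ha : 2 ≤ deg k a) (hb : 2 ≤ deg k b) (hi : i ≤ k)
    (ha1 : 1 ≤ a i) (hb1 : 1 ≤ b i) (h0 : ∀ j ≤ k, i < j → a j = 0 ∧ b j = 0)
    (hB : Bt ρ k a b i) : Bt ρ k' (psh k f a) (psh k f b) (f i) := by
  have ha' : 2 ≤ deg k' (psh k f a) := by rw [deg_psh hf]; exact ha
  have hb' : 2 ≤ deg k' (psh k f b) := by rw [deg_psh hf]; exact hb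
  by_cases hF : FR k' (psh k f a) (psh k f b) (f i)
  · exfalso
    obtain ⟨h1, h2, h3, h4, h5⟩ := hF
    have h6 : deg k' (psh k f a) = psh k f a (f i) := by
      apply deg_one (hf.le i hi)
      intro j hj hji
      by_cases hlt : j < f i
      · exact (h1 j hlt).1
      · exact psh_zero_gt hf hi (fun j hj hij => (h0 j hj hij).1) j (by omega)
    have h7 : deg k' (psh k f b) = psh k f b (f i) := by
      apply deg_one (hf.le i hi)
      intro j hj hji
      by_cases hlt : j < f i
      · exact (h1 j hlt).2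
      · exact psh_zero_gt hf hi (fun j hj hij => (h0 j hj hij).2) j (by omega)
    omega
  by_cases hZ : ZR k' (psh k f a) (psh k f b) (f i)
  · obtain ⟨h1, h2, h3, h4⟩ := hZ
    have hai : a i = 1 := by
      have := le_psh (f := f) (a := a) hi
      omega
    have hbi : b i = 1 := by
      have := le_psh (f := f) (a := b) hi
      omega
    have key : ∀ (e e' : ℕ → Bool), e i = e' (f i) →
        asm k' (pshB k f (fun j => bl (a j) (b j) (e j))) =
          w2 k' (psh k f a) (psh k f b) e' := by
      intro e e' hee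
      unfold w2
      apply asm_congr
      intro j hj
      by_cases hji : j = f i
      · subst hji
        have hz : ∀ m, m ≤ k → m ≠ i → f m = f i → bl (a m) (b m) (e m) = [] := by
          intro m hm hmi hfm
          have h7 := add_le_psh (a := a) hi hm hmi hfm
          have h8 := add_le_psh (a := b) hi hm hmi hfm
          have h9 : a m = 0 := by omega
          have h10 : b m = 0 := by omega
          rw [h9, h10]
          exact bl_zero _
        obtain ⟨t, ht⟩ := pshB_at (B := fun j => bl (a j) (b j) (e j)) (f := f) (i := i) rfl k hi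
          (fun m hm hfm => hz m (by omega) (by omega) hfm)
          (fun m hm1 hm2 hm3 => ⟨0, hz m hm2 (by omega) hm3⟩)
        have hbt : psh k f b (f i) = b i + t := by
          have h7 : (pshB k f (fun j => bl (a j) (b j) (e j)) (f i)).count 1 =
              psh k f b (f i) := by
            rw [count_pshB]
            simp only [count1_bl]
          rw [← h7, ht, List.count_append, count1_bl, List.count_replicate_self]
        have ht0 : t = 0 := by omega
        rw [ht, ht0, h3, h4, hai, hbi, hee]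
        simp
      · exact pshB_one _ (h2 j hj hji)
    intro e'
    obtain ⟨e, he⟩ : ∃ e : ℕ → Bool, e = fun _ => e' (f i) := ⟨_, rfl⟩
    have h7 := rr_push ρ hf (ok2 k a b e) (ok2 k a b (flp e i)) (hB e)
    rw [key e e' (by rw [he]), key (flp e i) (flp e' (f i)) (by rw [flp_same, flp_same, he])] at h7
    exact h7
  · exact c0 hE hA ha' hb' (hf.le i hi) hF hZ

theorem fcc (hSgc : SgcStmt) (hExc : ExcStmt) : FccStmt := by
  intro ρ hA
  exact ⟨fun k a b i ha hb hi h1 h2 => c0 hExc hA ha hb hi h1 h2,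
    fun k a a' b i h hB => f2 h hB,
    fun k a b d d' i ha hb hi ha1 hb1 hB => c3 hSgc hExc hA ha hb hi ha1 hb1 hB,
    fun k k' f a b i hf ha hb hi ha1 hb1 h0 hB => c4F hSgc hExc hA hf ha hb hi ha1 hb1 h0 hB,
    fun k k' f a b i hf ha hb hi ha1 hb1 h0 hB => c4Z hExc hA hf ha hb hi ha1 hb1 h0 hB,
    fun k a b i hB => f5 hB⟩

end Pool.Agent.MVO.H24
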