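import Pool.Agent.MVO.StmtsV

/-!
# Squad MVO, row GBV (helper24): blocks are gathered at the last occurrences
-/

namespace Pool.Agent.MVO.H24

open Pool.Agent.Helper14_MV Pool.Agent.Helper2_MV Pool.Agent.MVO

theorem gb_cons' (n : ℕ → ℕ) (a : ℕ) (D : List ℕ) :
    gb n (a :: D) = List.replicate (n a) a ++ gb n D := by
  unfold gb
  rw [List.flatMap_cons]

theorem gb_append' (n : ℕ → ℕ) (D E : List ℕ) : gb n (D ++ E) = gb n D ++ gb n E := by
  unfold gb
  rw [List.flatMap_append]

theorem gb_congr' {n n' : ℕ → ℕ} {D : List ℕ} (h : ∀ c ∈ D, n c = n' c) : gb n D = gb n' D := by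
  unfold gb
  apply flatMap_congr'
  intro c hc
  rw [h c hc]

theorem mem_gb' {n : ℕ → ℕ} {D : List ℕ} {c : ℕ} (h : c ∈ gb n D) : c ∈ D := by
  unfold gb at h
  rw [List.mem_flatMap] at h
  obtain ⟨a, ha, hc⟩ := h
  rw [List.eq_of_mem_replicate hc]
  exact ha

theorem count_gb' (n : ℕ → ℕ) (c : ℕ) : ∀ D : List ℕ, D.Nodup → c ∈ D → (gb n D).count c = n c := by
  intro D
  induction D with
  | nil => intro _ h; simp at h
  | cons a D ih =>
    intro hD hc
    rw [List.nodup_cons] at hD
    rw [gb_cons', List.count_append]
    by_cases h : c = a
    · subst h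
      rw [List.count_replicate_self]
      have h1 : (gb n D).count c = 0 := by
        rw [List.count_eq_zero]
        intro h2
        exact hD.1 (mem_gb' h2)
      omega
    · have h1 : (List.replicate (n a) a).count c = 0 := by
        rw [List.count_eq_zero]
        intro h2
        exact h (List.eq_of_mem_replicate h2)
      rcases List.mem_cons.1 hc with h2 | h2
      · exact absurd h2 h
      · rw [h1, ih hD.2 h2, Nat.zero_add]

theorem count_gb_dedup (L : List ℕ) {c : ℕ} (hc : c ∈ L) :
    (gb (fun c => L.count c) L.dedup).count c = L.count c :=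
  count_gb' _ c _ (List.nodup_dedup L) (List.mem_dedup.2 hc)

theorem gbv (hMvv : MvvStmt) : GbvStmt := by
  intro β hF L
  induction L with
  | nil =>
    intro p q _
    exact RR.refl _
  | cons y L ih =>
    intro p q hL
    have e0 : p ++ (y :: L) ++ q = p ++ [y] ++ L ++ q := by simp
    have h1 := ih (p ++ [y]) q (fun c hc => by
      rw [← e0]
      exact hL c (List.mem_cons_of_mem _ hc))
    rw [e0]
    refine β.trans h1 ?_
    by_cases hy : y ∈ L
    · rw [List.dedup_cons_of_mem hy]
      obtain ⟨Z1, Z2, hZ⟩ := List.append_of_mem (List.mem_dedup.2 hy)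
      have hnd := List.nodup_dedup L
      rw [hZ] at hnd
      have hy1 : y ∉ Z1 := by
        intro h
        exact (List.disjoint_of_nodup_append hnd) h (List.mem_cons_self ..)
      have hy2 : y ∉ Z2 := (List.nodup_cons.1 (List.nodup_append.1 hnd).2.1).1
      have hpos : 0 < L.count y := List.count_pos_iff.2 hy
      obtain ⟨m, hm⟩ : ∃ m, L.count y = m + 1 := ⟨L.count y - 1, by omega⟩
      have e1 : gb (fun c => L.count c) Z1 = gb (fun c => (y :: L).count c) Z1 := by
        apply gb_congr'
        intro c hc
        have hyc : y ≠ c := fun h => hy1 (h ▸ hc)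
        exact (List.count_cons_of_ne hyc).symm
      have e2 : gb (fun c => L.count c) Z2 = gb (fun c => (y :: L).count c) Z2 := by
        apply gb_congr'
        intro c hc
        have hyc : y ≠ c := fun h => hy2 (h ▸ hc)
        exact (List.count_cons_of_ne hyc).symm
      have e3 : gb (fun c => L.count c) L.dedup =
          gb (fun c => L.count c) Z1 ++ y :: (List.replicate m y ++
            gb (fun c => L.count c) Z2) := by
        rw [hZ, gb_append', gb_cons']
        show _ ++ (List.replicate (L.count y) y ++ _) = _
        rw [hm, List.replicate_succ]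
        simp
      have e4 : gb (fun c => (y :: L).count c) (Z1 ++ y :: Z2) =
          gb (fun c => L.count c) Z1 ++ y :: y :: (List.replicate m y ++
            gb (fun c => L.count c) Z2) := by
        rw [gb_append', gb_cons', ← e1, ← e2]
        show _ ++ (List.replicate ((y :: L).count y) y ++ _) = _
        rw [List.count_cons_self, hm, List.replicate_succ, List.replicate_succ]
        simp
      have h2 := hMvv β hF (gb (fun c => L.count c) Z1) p
        (List.replicate m y ++ gb (fun c => L.count c) Z2 ++ q) y (by
          intro c hc
          have hcL : c ∈ L := by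
            apply List.mem_dedup.1
            rw [hZ]
            exact List.mem_append_left _ (mem_gb' hc)
          have e5 : p ++ y :: (gb (fun c => L.count c) Z1 ++ y ::
              (List.replicate m y ++ gb (fun c => L.count c) Z2 ++ q)) =
              p ++ y :: (gb (fun c => L.count c) L.dedup ++ q) := by
            rw [e3]
            simp
          have h3 := hL c (List.mem_cons_of_mem _ hcL)
          rw [e5]
          simp only [List.count_append, List.count_cons] at h3 ⊢
          rw [count_gb_dedup L hcL]
          omega)
      rw [hZ, e4, ← hZ, e3]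
      have e6 : p ++ [y] ++ (gb (fun c => L.count c) Z1 ++ y :: (List.replicate m y ++
          gb (fun c => L.count c) Z2)) ++ q = p ++ y :: (gb (fun c => L.count c) Z1 ++ y ::
            (List.replicate m y ++ gb (fun c => L.count c) Z2 ++ q)) := by simp
      have e7 : p ++ (gb (fun c => L.count c) Z1 ++ y :: y :: (List.replicate m y ++
          gb (fun c => L.count c) Z2)) ++ q = p ++ (gb (fun c => L.count c) Z1 ++ y :: y ::
            (List.replicate m y ++ gb (fun c => L.count c) Z2 ++ q)) := by simp
      rw [e6, e7]
      exact h2
    · rw [List.dedup_cons_of_notMem hy, gb_cons']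
      have e1 : gb (fun c => (y :: L).count c) L.dedup = gb (fun c => L.count c) L.dedup := by
        apply gb_congr'
        intro c hc
        have hyc : y ≠ c := fun h => hy (h ▸ List.mem_dedup.1 hc)
        exact List.count_cons_of_ne hyc
      rw [e1]
      have e2 : (y :: L).count y = 1 := by
        rw [List.count_cons_self, List.count_eq_zero.2 hy]
      show RR β (p ++ [y] ++ gb (fun c => L.count c) L.dedup ++ q)
        (p ++ (List.replicate ((y :: L).count y) y ++ gb (fun c => L.count c) L.dedup) ++ q)
      rw [e2]
      have e3 : p ++ (List.replicate 1 y ++ gb (fun c => L.count c) L.dedup) ++ q =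
          p ++ [y] ++ gb (fun c => L.count c) L.dedup ++ q := by simp
      rw [e3]
      exact RR.refl _

end Pool.Agent.MVO.H24
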