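import Pool.Agent.MVO.StmtsE
import Pool.Agent.Helper35_MVO.RGA
import Pool.Agent.Helper24_MVO.GBV
import Pool.Agent.Helper24_MVO.FCC

/-!
# Squad MVO, row GG2 (helper24): words with two multiple letters can be gathered in class Cc
-/

namespace Pool.Agent.MVO.H24

open Pool.Agent.Helper14_MV Pool.Agent.Helper2_MV Pool.Agent.MVO

/-- a list with one letter which is accepted by the filter -/
theorem filter_one {x y : ℕ} {p : ℕ → Bool} (hx : p x = true) (hy : p y = false) {L : List ℕ}
    (hL : ∀ z ∈ L, z = x ∨ z = y) : L.filter p = List.replicate (L.count x) x := by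
  have h1 : ∀ z ∈ L.filter p, z = x := by
    intro z hz
    rw [List.mem_filter] at hz
    rcases hL z hz.1 with h | h
    · exact h
    · rw [h, hy] at hz
      simp at hz
  have h2 := List.eq_replicate_of_mem h1
  have h3 : (L.filter p).count x = L.count x := List.count_filter hx
  rw [List.count_eq_length.2 (fun z hz => (h1 z hz).symm)] at h3
  rw [h3] at h2
  exact h2

theorem filter_none {x y : ℕ} {p : ℕ → Bool} (hx : p x = false) (hy : p y = false) {L : List ℕ}
    (hL : ∀ z ∈ L, z = x ∨ z = y) : L.filter p = [] := by
  rw [List.filter_eq_nil_iff]
  intro z hz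
  rcases hL z hz with h | h
  · rw [h, hx]
    simp
  · rw [h, hy]
    simp

theorem asm_filter_congr {k : ℕ} {B B' : ℕ → List ℕ} {p : ℕ → Bool}
    (h : ∀ j ≤ k, (B j).filter p = (B' j).filter p) : (asm k B).filter p = (asm k B').filter p := by
  induction k with
  | zero => exact h 0 le_rfl
  | succ k ih =>
    simp only [asm]
    rw [List.filter_append, List.filter_append, ih (fun j hj => h j (by omega)),
      List.filter_cons, List.filter_cons, h (k + 1) le_rfl]

theorem head_asm {k m : ℕ} (hm : m ≤ k) {B : ℕ → List ℕ} {p : ℕ → Bool} {z : ℕ}
    (hp : ∀ c, 2 ≤ c → c ≤ k + 1 → p c = false) (h0 : ∀ j < m, B j = [])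
    (h1 : ∀ c ∈ B m, p c = true) (hz : (B m).head? = some z) :
    ((asm k B).filter p).head? = some z := by
  rw [asm_split hm, List.filter_append, List.filter_append]
  have e1 : (pre B m).filter p = [] := by
    rw [List.filter_eq_nil_iff]
    intro c hc
    rcases mem_pre.1 hc with h | ⟨j, hj, h⟩
    · rw [hp c h.1 (by omega)]
      simp
    · rw [h0 j hj] at h
      simp at h
  have e2 : (B m).filter p = B m := List.filter_eq_self.2 h1
  rw [e1, e2, List.nil_append, List.head?_append, hz]
  rfl

theorem last_asm {k m : ℕ} (hm : m ≤ k) {B : ℕ → List ℕ} {p : ℕ → Bool} {z : ℕ}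
    (hp : ∀ c, 2 ≤ c → c ≤ k + 1 → p c = false) (h0 : ∀ j ≤ k, m < j → B j = [])
    (h1 : ∀ c ∈ B m, p c = true) (hz : (B m).getLast? = some z) :
    ((asm k B).filter p).getLast? = some z := by
  rw [asm_split hm, List.filter_append, List.filter_append]
  have e1 : (suf B m (k - m)).filter p = [] := by
    rw [List.filter_eq_nil_iff]
    intro c hc
    rcases mem_suf.1 hc with h | ⟨j, hj1, hj2, h⟩
    · rw [hp c (by omega) (by omega)]
      simp
    · rw [h0 j (by omega) hj1] at h
      simp at h
  have e2 : (B m).filter p = B m := List.filter_eq_self.2 h1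
  rw [e1, e2, List.append_nil, List.getLast?_append, hz]
  rfl

theorem gg2_two (hNfs : NfsStmt) (hLcl : LclStmt) {β : FIC} (hC : MVD.Cc β) {k : ℕ}
    {B : ℕ → List ℕ} {x y : ℕ} (hxy : x ≠ y) (hx : NS k x) (hy : NS k y)
    (hB : ∀ j ≤ k, ∀ c ∈ B j, c = x ∨ c = y) (hdx : 2 ≤ deg k (fun j => (B j).count x))
    (hdy : 2 ≤ deg k (fun j => (B j).count y)) (hOk : BlkOk k B) :
    ∃ D : ℕ → List ℕ, (∀ j, (D j).Perm [x, y]) ∧
      RR β (asm k B) (gw k (fun j c => (B j).count c) D) := by
  -- the last nonempty block
  have hlen : 0 < deg k (fun j => (B j).length) := by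
    have h1 : deg k (fun j => (B j).count x) ≤ deg k (fun j => (B j).length) :=
      H35.deg_le fun j _ => List.count_le_length
    omega
  obtain ⟨M, hM, hMne, hMz⟩ := H35.exists_last hlen
  have hMne : B M ≠ [] := fun h => hMne (by show (B M).length = 0; rw [h]; rfl)
  have hMz : ∀ j ≤ k, M < j → B j = [] := fun j hj hMj => List.length_eq_zero_iff.1 (hMz j hMj hj)
  -- the first nonempty block
  have hex : ∃ j, B j ≠ [] := ⟨M, hMne⟩
  obtain ⟨m, hm1, hm2⟩ : ∃ m, B m ≠ [] ∧ ∀ j < m, B j = [] := by
    classical
    exact ⟨Nat.find hex, Nat.find_spec hex, fun j hj => by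
      have := Nat.find_min hex hj
      simpa using this⟩
  have hmM : m ≤ M := by
    by_contra h
    exact hMne (hm2 M (by omega))
  obtain ⟨D, hD⟩ : ∃ D : ℕ → List ℕ, D = fun j => if j < M then
      (if (B j).head? = some x then [x, y] else [y, x]) else
      (if (B j).getLast? = some y then [x, y] else [y, x]) := ⟨_, rfl⟩
  have hD2 : ∀ j, D j = [x, y] ∨ D j = [y, x] := by
    intro j
    have h : D j = (if j < M then (if (B j).head? = some x then [x, y] else [y, x]) else
      (if (B j).getLast? = some y then [x, y] else [y, x])) := by rw [hD]
    rw [h]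
    split_ifs <;> simp
  have hperm : ∀ j, (D j).Perm [x, y] := by
    intro j
    rcases hD2 j with h | h
    · rw [h]
    · rw [h]
      exact List.Perm.swap _ _ _
  refine ⟨D, hperm, ?_⟩
  obtain ⟨G, hG⟩ : ∃ G : ℕ → List ℕ, G = fun j => gb (fun c => (B j).count c) (D j) := ⟨_, rfl⟩
  have hGj : ∀ j, G j = gb (fun c => (B j).count c) (D j) := fun j => by rw [hG]
  have hgw : gw k (fun j c => (B j).count c) D = asm k G := by
    rw [hG]
    rfl
  rw [hgw]
  have hGmem : ∀ j, ∀ c ∈ G j, c = x ∨ c = y := by
    intro j c hc
    rw [hGj] at hc
    have h1 := mem_gb' hc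
    rcases hD2 j with h | h <;> rw [h] at h1 <;> simp only [List.mem_cons, List.not_mem_nil,
      or_false] at h1
    · exact h1
    · exact h1.symm
  have hnd : ∀ j, (D j).Nodup := by
    intro j
    rw [(hperm j).nodup_iff]
    simp [hxy]
  have hmD : ∀ j c, c = x ∨ c = y → c ∈ D j := by
    intro j c hc
    rw [(hperm j).mem_iff]
    rcases hc with h | h <;> simp [h]
  have hcnt : ∀ j ≤ k, ∀ c, (B j).count c = (G j).count c := by
    intro j hj c
    by_cases hc : c = x ∨ c = y
    · rw [hGj, count_gb' _ c _ (hnd j) (hmD j c hc)]
    · rw [List.count_eq_zero.2 (fun h => hc (hB j hj c h)),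
        List.count_eq_zero.2 (fun h => hc (hGmem j c h))]
  by_cases hmM2 : m = M
  · -- all letters are local
    subst hmM2
    have hz : ∀ j ≤ k, j ≠ m → B j = [] := by
      intro j hj hjm
      by_cases h : j < m
      · exact hm2 j h
      · exact hMz j hj (by omega)
    have hzG : ∀ j ≤ k, j ≠ m → G j = [] := by
      intro j hj hjm
      rw [List.eq_nil_iff_forall_not_mem]
      intro c hc
      have h1 := hcnt j hj c
      rw [hz j hj hjm] at h1
      have h2 := List.count_pos_iff.2 hc
      rw [← h1] at h2
      simp at h2
    have e1 : deg k (fun j => (B j).count x) = (B m).count x :=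
      deg_one hM (fun j hj hji => by rw [hz j hj hji]; rfl)
    have e2 : deg k (fun j => (B j).count y) = (B m).count y :=
      deg_one hM (fun j hj hji => by rw [hz j hj hji]; rfl)
    have h1 := hLcl β hC (pre B m) (suf B m (k - m)) (B m) (G m) x y
      (List.perm_iff_count.2 (hcnt m hM)) (hB m hM) (by omega) (by omega)
    rw [← asm_split hM, ← asm_update hM] at h1
    have e3 : asm k (Function.update B m (G m)) = asm k G := by
      apply asm_congr
      intro j hj
      by_cases hjm : j = m
      · subst hjm
        rw [Function.update_self]
      · rw [Function.update_of_ne hjm, hz j hj hjm, hzG j hj hjm]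
    rw [e3] at h1
    exact h1
  · have hlt : m < M := by omega
    have hmk : m ≤ k := by omega
    apply hNfs β hC k B G hOk
    · intro j hj c hc
      rcases hGmem j c hc with h | h <;> rw [h]
      · exact hx
      · exact hy
    · exact hcnt
    · intro j hj c hc
      rcases hB j hj c hc with h | h <;> rw [h]
      · exact hdx
      · exact hdy
    · intro c d hc hd
      obtain ⟨p, hp⟩ : ∃ p : ℕ → Bool, p = fun z => decide (z = c ∨ z = d) := ⟨_, rfl⟩
      have hpz : ∀ z, p z = true ↔ z = c ∨ z = d := by
        intro z
        rw [hp]
        exact decide_eq_true_iff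
      have hrl : ∀ l, rl c d l = l.filter p := by
        intro l
        rw [hp]
        rfl
      rw [hrl, hrl]
      have hps : ∀ z, 2 ≤ z → z ≤ k + 1 → p z = false := by
        intro z h1 h2
        rw [Bool.eq_false_iff]
        intro h3
        rcases (hpz z).1 h3 with h | h
        · exact hc (h ▸ ⟨h1, h2⟩)
        · exact hd (h ▸ ⟨h1, h2⟩)
      have hcase : ((p x = true ∧ p y = true)) ∨
          (∀ j ≤ k, (B j).filter p = (G j).filter p) := by
        cases hpx : p x
        · cases hpy : p y
          · right
            intro j hj
            rw [filter_none hpx hpy (hB j hj), filter_none hpx hpy (hGmem j)]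
          · right
            intro j hj
            rw [filter_one hpy hpx (fun z hz => (hB j hj z hz).symm),
              filter_one hpy hpx (fun z hz => (hGmem j z hz).symm), hcnt j hj]
        · cases hpy : p y
          · right
            intro j hj
            rw [filter_one hpx hpy (hB j hj), filter_one hpx hpy (hGmem j), hcnt j hj]
          · left
            exact ⟨rfl, rfl⟩
      rcases hcase with ⟨hpx, hpy⟩ | hall
      · have hBp : ∀ j ≤ k, ∀ z ∈ B j, p z = true := by
          intro j hj z hz
          rcases hB j hj z hz with h | h <;> rw [h]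
          · exact hpx
          · exact hpy
        have hGp : ∀ j, ∀ z ∈ G j, p z = true := by
          intro j z hz
          rcases hGmem j z hz with h | h <;> rw [h]
          · exact hpx
          · exact hpy
        have hBG : ∀ j ≤ k, B j = [] → G j = [] := by
          intro j hj h
          rw [List.eq_nil_iff_forall_not_mem]
          intro z hz
          have h1 := hcnt j hj z
          rw [h] at h1
          have h2 := List.count_pos_iff.2 hz
          rw [← h1] at h2
          simp at h2
        constructor
        · -- heads
          obtain ⟨z, hz⟩ : ∃ z, (B m).head? = some z := by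
            cases hB0 : B m with
            | nil => exact absurd hB0 hm1
            | cons z L => exact ⟨z, rfl⟩
          have hzm : z ∈ B m := List.mem_of_mem_head? hz
          have hpos : 0 < (B m).count z := List.count_pos_iff.2 hzm
          have hGz : (G m).head? = some z := by
            rw [hGj]
            have hDm : D m = if (B m).head? = some x then [x, y] else [y, x] := by
              rw [hD]
              show (if m < M then (if (B m).head? = some x then [x, y] else [y, x]) else
                (if (B m).getLast? = some y then [x, y] else [y, x])) = _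
              rw [if_pos hlt]
            rw [hDm, hz]
            obtain ⟨t, ht⟩ : ∃ t, (B m).count z = t + 1 := ⟨(B m).count z - 1, by omega⟩
            rcases hB m hmk z hzm with h | h
            · subst h
              rw [if_pos rfl, gb_cons']
              show (List.replicate ((B m).count z) z ++ _).head? = _
              rw [ht, List.replicate_succ]
              rfl
            · subst h
              rw [if_neg (by simpa using hxy.symm), gb_cons']
              show (List.replicate ((B m).count z) z ++ _).head? = _
              rw [ht, List.replicate_succ]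
              rfl
          rw [head_asm hmk hps hm2 (hBp m hmk) hz,
            head_asm hmk hps (fun j hj => hBG j (by omega) (hm2 j hj)) (hGp m) hGz]
        · -- last letters
          obtain ⟨z, hz⟩ : ∃ z, (B M).getLast? = some z :=
            ⟨(B M).getLast hMne, List.getLast?_eq_some_getLast hMne⟩
          have hzm : z ∈ B M := List.mem_of_mem_getLast? hz
          have hpos : 0 < (B M).count z := List.count_pos_iff.2 hzm
          have hGz : (G M).getLast? = some z := by
            rw [hGj]
            have hDm : D M = if (B M).getLast? = some y then [x, y] else [y, x] := by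
              rw [hD]
              show (if M < M then (if (B M).head? = some x then [x, y] else [y, x]) else
                (if (B M).getLast? = some y then [x, y] else [y, x])) = _
              rw [if_neg (by omega)]
            rw [hDm, hz]
            obtain ⟨t, ht⟩ : ∃ t, (B M).count z = t + 1 := ⟨(B M).count z - 1, by omega⟩
            have gb0 : ∀ n : ℕ → ℕ, gb n [] = [] := fun n => rfl
            rcases hB M hM z hzm with h | h
            · subst h
              rw [if_neg (by simpa using hxy), gb_cons', gb_cons', gb0, List.append_nil]
              show (_ ++ List.replicate ((B M).count z) z).getLast? = _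
              rw [ht, List.replicate_succ', ← List.append_assoc]
              exact List.getLast?_concat
            · subst h
              rw [if_pos rfl, gb_cons', gb_cons', gb0, List.append_nil]
              show (_ ++ List.replicate ((B M).count z) z).getLast? = _
              rw [ht, List.replicate_succ', ← List.append_assoc]
              exact List.getLast?_concat
          rw [last_asm hM hps hMz (hBp M hM) hz,
            last_asm hM hps (fun j hj hj2 => hBG j hj (hMz j hj hj2)) (hGp M) hGz]
      · rw [asm_filter_congr hall]
        exact ⟨rfl, rfl⟩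

theorem gg2 (hNfs : NfsStmt) (hLcl : LclStmt) : Gg2Stmt := by
  intro β hC k B X hlen hOk hnd hns hmem hdeg
  match X, hlen, hnd, hns, hmem, hdeg with
  | [], _, _, _, hmem, _ =>
    refine ⟨fun _ => [], fun _ => List.Perm.refl _, ?_⟩
    have e : asm k B = gw k (fun j c => (B j).count c) (fun _ => []) := by
      unfold gw
      apply asm_congr
      intro j hj
      show B j = []
      rw [List.eq_nil_iff_forall_not_mem]
      intro c hc
      exact absurd (hmem j hj c hc) (by simp)
    rw [e]
    exact RR.refl _
  | [x], _, _, _, hmem, _ =>
    refine ⟨fun _ => [x], fun _ => List.Perm.refl _, ?_⟩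
    have e : asm k B = gw k (fun j c => (B j).count c) (fun _ => [x]) := by
      unfold gw
      apply asm_congr
      intro j hj
      have h1 : ∀ z ∈ B j, z = x := fun z hz => by simpa using hmem j hj z hz
      have h2 := List.eq_replicate_of_mem h1
      have h3 : (B j).count x = (B j).length := List.count_eq_length.2 (fun z hz => (h1 z hz).symm)
      rw [gb_cons']
      show B j = List.replicate ((B j).count x) x ++ []
      rw [List.append_nil, h3]
      exact h2
    rw [e]
    exact RR.refl _
  | [x, y], _, hnd, hns, hmem, hdeg =>
    have hxy : x ≠ y := by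
      intro h
      rw [h] at hnd
      simp at hnd
    exact gg2_two hNfs hLcl hC hxy (hns x (by simp)) (hns y (by simp))
      (fun j hj c hc => by simpa using hmem j hj c hc) (hdeg x (by simp)) (hdeg y (by simp)) hOk
  | x :: y :: z :: X, hlen, _, _, _, _ =>
    simp only [List.length_cons] at hlen
    omega

end Pool.Agent.MVO.H24
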