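import Pool.Agent.MVO.StmtsD

/-!
# Squad MVO, row ND4 (helper24): the clause g1d over O1
-/

namespace Pool.Agent.MVO.H24

open Pool.Agent.Helper14_MV Pool.Agent.Helper2_MV Pool.Agent.MVO

/-- `Bt` depends only on the values at `0, …, k` -/
theorem bt_congr {ρ : FIC} {k : ℕ} {a a' b b' : ℕ → ℕ} {i : ℕ} (ha : ∀ j ≤ k, a j = a' j)
    (hb : ∀ j ≤ k, b j = b' j) (h : Bt ρ k a b i) : Bt ρ k a' b' i := by
  have hw : ∀ e : ℕ → Bool, w2 k a b e = w2 k a' b' e := by
    intro e
    unfold w2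
    apply asm_congr
    intro j hj
    rw [ha j hj, hb j hj]
  intro e
  have h1 := h e
  unfold Ex at h1 ⊢
  rw [← hw, ← hw]
  exact h1

theorem nd4 (hNd1 : Nd1Stmt) (hHop : HopStmt) (hRvo : RvoStmt) (hRvb : RvbStmt) : Nd4Stmt := by
  intro β hβ h1 h2
  have h1 : L1 β 1 (v2 2 1) (v2 1 2) := h1
  have l1ext : ∀ {k : ℕ} {a a' b b' : ℕ → ℕ}, (∀ j ≤ k, a j = a' j) → (∀ j ≤ k, b j = b' j) →
      L1 β k a b → L1 β k a' b' := fun h h' hr => (FC.ofFIC β).ext h h' hr
  have l1symm : ∀ {k : ℕ} {a b : ℕ → ℕ}, L1 β k a b → L1 β k b a :=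
    fun h => (FC.ofFIC β).symm h
  have o1 : O1 (FC.ofFIC (FIC.op β)) := by
    show L1 (FIC.op β) 1 (v2 2 1) (v2 1 2)
    rw [hRvo]
    apply l1symm
    apply l1ext _ _ h1
    · intro j hj
      interval_cases j <;> rfl
    · intro j hj
      interval_cases j <;> rfl
  have o3 : ¬ O3 (FC.ofFIC (FIC.op β)) := by
    intro h
    have h : L1 (FIC.op β) 1 (v2 3 0) (v2 2 1) := h
    rw [hRvo] at h
    apply h2
    show L1 β 1 (v2 1 2) (v2 0 3)
    apply l1symm
    apply l1ext _ _ h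
    · intro j hj
      interval_cases j <;> rfl
    · intro j hj
      interval_cases j <;> rfl
  rcases hNd1 (FIC.op β) (hHop β hβ) o1 o3 with h | h
  · left
    show L1 β 2 (v3 1 1 1) (v3 2 0 1)
    have h : L1 (FIC.op β) 2 (v3 1 1 1) (v3 2 0 1) := h
    rw [hRvo] at h
    have h3 : L1 β 2 (v3 1 1 1) (v3 1 0 2) := by
      apply l1ext _ _ h
      · intro j hj
        interval_cases j <;> rfl
      · intro j hj
        interval_cases j <;> rfl
    have hf : BMap 1 2 (fun j => 2 * j) := by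
      refine ⟨fun i j hij _ => ?_, fun i hi => ?_⟩
      · show 2 * i ≤ 2 * j
        omega
      · show 2 * i ≤ 2
        omega
    have h4 : L1 β 2 (psh 1 (fun j => 2 * j) (v2 1 2)) (psh 1 (fun j => 2 * j) (v2 2 1)) :=
      (FC.ofFIC β).push 2 (fun j => 2 * j) hf (l1symm h1)
    have h5 : L1 β 2 (v3 1 0 2) (v3 2 0 1) := by
      apply l1ext _ _ h4
      · intro j hj
        interval_cases j <;> decide
      · intro j hj
        interval_cases j <;> decide
    exact (FC.ofFIC β).trans h3 h5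
  · right
    have h3 := (hRvb β 2 (v3 0 2 1) (v3 1 0 1) 2 le_rfl).1 h
    apply bt_congr _ _ h3
    · intro j hj
      interval_cases j <;> rfl
    · intro j hj
      interval_cases j <;> rfl

end Pool.Agent.MVO.H24
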