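import Pool.Agent.MVO.StmtsF

/-!
# Squad MVO, row SF3 (helper24): sufficiency for class c3
-/

namespace Pool.Agent.MVO.H24

open Pool.Agent.Helper14_MV Pool.Agent.Helper2_MV Pool.Agent.MVO

theorem sf3 (hSu2 : Su2Stmt) (hOlw : OlwStmt) (hGg2 : Gg2Stmt) (hRg2 : Rg2Stmt)
    (hDet : DetStmt) (hTi3 : Ti3Stmt) (hWu3 : Wu3Stmt) : Sf3Stmt := by
  intro β hβ hG
  have hOO : OO β := by
    rcases hG.2 with h | h | h | h
    · exact Or.inl h.1
    · exact Or.inr (Or.inl h.1)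
    · exact Or.inr (Or.inr (Or.inl h.1))
    · exact Or.inr (Or.inr (Or.inr h))
  exact hSu2 β (hDet β hβ) (hGg2 β hβ.cc) (hRg2 β hβ.cc) (hTi3 β hβ hG) (hOlw β hOO)
    (hWu3 β hβ hOO hG.1)

end Pool.Agent.MVO.H24
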